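import Pool.Agent.Lib.MP_e057e5_lc.Final

open Pool.Agent.Lib Pool.Agent.Lib.MP_e057e5_lc

/-- A polynomial-time many-one reduction from CLIQUE to the question whether the minimum cut of
the 2-dimensional rigidity matroid of a rigid graph is at most a given number. -/
theorem Pool.Agent.Results.MP_e057e5_lc.NPHard.result :
    ∃ (P : List Ram.Instr) (C : ℕ), ∀ (n k : ℕ) (G : SimpleGraph (Fin n)),
      ∃ (H : MGraph) (c : ℕ) (s : Ram.Config),
        Ram.HaltsWithin P (Ram.initial (cliqueCode n k G))
          (C * (n + 1) ^ C) (C * (n + k + 1) ^ C) s ∧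
        (∀ (i : ℕ) (h : i < (c :: H.code).length),
          s.mem ((cliqueCode n k G).length + i) = (c :: H.code)[i]) ∧
        2 ≤ H.n ∧ H.Rigid ∧ ((∃ S, G.IsNClique k S) ↔ H.cut ≤ c) :=
  reduction
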